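import Mathlib

namespace Pool.Agent.Results.MP_6d30b5_co.Counter

open Finset

open Classical in
/-- the 3-element vertex sets inducing a connected subgraph -/
noncomputable def triples {n : ℕ} (G : SimpleGraph (Fin n)) : Finset (Finset (Fin n)) :=
  ((univ : Finset (Fin n)).powersetCard 3).filter
    (fun S => (G.induce (S : Set (Fin n))).Connected)

/-- `s₃(G)` -/
noncomputable def s3 {n : ℕ} (G : SimpleGraph (Fin n)) : ℕ := (triples G).card

/-- `m(n,e)` -/
noncomputable def m (n e : ℕ) : ℕ :=
  sInf {k | ∃ G : SimpleGraph (Fin n), G.edgeSet.ncard = e ∧ s3 G = k}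

section
variable {n : ℕ} (G : SimpleGraph (Fin n))

lemma mem_of_center {S : Finset (Fin n)} {v : Fin n} (hc : S.card = 3) (hv : v ∈ S)
    (h : ∀ u ∈ S, u ≠ v → G.Adj v u) : S ∈ triples G := by
  classical
  simp only [triples, mem_filter, mem_powersetCard, subset_univ, true_and]
  refine ⟨hc, ?_⟩
  rw [SimpleGraph.connected_iff_exists_forall_reachable]
  refine ⟨⟨v, by simpa using hv⟩, fun w => ?_⟩
  by_cases hw : w.1 = v
  · have : w = ⟨v, by simpa using hv⟩ := Subtype.ext hw
    rw [this]
  · exact SimpleGraph.Adj.reachable (by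
      simpa using h w.1 (by simp) hw)

open Classical in
noncomputable def bad : Finset (Finset (Fin n)) :=
  (triples G).filter (fun S => ∃ a ∈ S, ∃ b ∈ S, a ≠ b ∧ ¬ G.Adj a b)

lemma mem_bad {S : Finset (Fin n)} :
    S ∈ bad G ↔ S ∈ triples G ∧ ∃ a ∈ S, ∃ b ∈ S, a ≠ b ∧ ¬ G.Adj a b := by
  simp [bad]

lemma mem_triples {S : Finset (Fin n)} :
    S ∈ triples G ↔ S.card = 3 ∧ (G.induce (S : Set (Fin n))).Connected := by
  simp [triples]

lemma count [DecidableRel G.Adj] :
    ∑ v, (G.degree v).choose 2 + 2 * (bad G).card ≤ 3 * s3 G := by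
  classical
  let c : Fin n → Finset (Fin n) → Prop := fun v S => v ∈ S ∧ ∀ u ∈ S, u ≠ v → G.Adj v u
  have h1 : ∀ v, (G.degree v).choose 2 ≤ ((triples G).filter (c v)).card := by
    intro v
    rw [← SimpleGraph.card_neighborFinset_eq_degree, ← card_powersetCard]
    apply card_le_card_of_injOn (fun P => insert v P)
    · intro P hP
      have hP' := mem_powersetCard.1 (mem_coe.1 hP)
      have hv : v ∉ P := fun h => by simpa using hP'.1 h
      have hc : c v (insert v P) := ⟨mem_insert_self _ _, fun u hu huv => by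
        rcases mem_insert.1 hu with h | h
        · exact absurd h huv
        · simpa using hP'.1 h⟩
      exact mem_coe.2 (mem_filter.2 ⟨mem_of_center G (by rw [card_insert_of_notMem hv, hP'.2])
        hc.1 hc.2, hc⟩)
    · intro P hP Q hQ h
      have hP' := mem_powersetCard.1 (mem_coe.1 hP)
      have hQ' := mem_powersetCard.1 (mem_coe.1 hQ)
      have hv : v ∉ P := fun h => by simpa using hP'.1 h
      have hv' : v ∉ Q := fun h => by simpa using hQ'.1 h
      have := congrArg (fun S => S.erase v) h
      simpa [erase_insert hv, erase_insert hv'] using this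
  have h2 : ∑ v, ((triples G).filter (c v)).card
      = ∑ S ∈ triples G, (univ.filter (fun v => c v S)).card := by
    simp only [card_filter]
    exact sum_comm
  have h3 : ∀ S ∈ triples G, (univ.filter (fun v => c v S)).card
      + 2 * (if S ∈ bad G then 1 else 0) ≤ 3 := by
    intro S hS
    have hc : S.card = 3 := ((mem_triples G).1 hS).1
    split_ifs with h
    · obtain ⟨a, ha, b, hb, hab, hn⟩ := ((mem_bad G).1 h).2
      have : univ.filter (fun v => c v S) ⊆ (S.erase a).erase b := by
        intro v hv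
        have hv := (mem_filter.1 hv).2
        refine mem_erase.2 ⟨?_, mem_erase.2 ⟨?_, hv.1⟩⟩
        · intro h; exact hn (h ▸ (hv.2 a ha (h ▸ hab)).symm)
        · intro h; exact hn (h ▸ (hv.2 b hb (h ▸ hab.symm)))
      have h4 := card_le_card this
      rw [card_erase_of_mem (mem_erase.2 ⟨hab.symm, hb⟩), card_erase_of_mem ha] at h4
      omega
    · have : univ.filter (fun v => c v S) ⊆ S := fun v hv => (mem_filter.1 hv).2.1
      have := card_le_card this
      omega
  have h5 := sum_le_sum h3
  rw [sum_add_distrib, ← mul_sum, ← card_filter, sum_const, smul_eq_mul] at h5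
  have h6 := sum_le_sum (fun v (_ : v ∈ univ) => h1 v)
  have h7 : (triples G).filter (fun S => S ∈ bad G) = bad G := by
    ext S
    simp only [mem_filter]
    exact ⟨fun h => h.2, fun h => ⟨((mem_bad G).1 h).1, h⟩⟩
  rw [h7] at h5
  unfold s3
  omega

lemma bad_ge [DecidableRel G.Adj] {u v w : Fin n} (h1 : G.Adj v u) (h2 : G.Adj v w) (h3 : u ≠ w)
    (h4 : ¬ G.Adj u w) : G.degree v ≤ (bad G).card + 1 := by
  classical
  have key : ∀ x a b : Fin n, G.Adj x a → G.Adj x b → a ≠ b → ¬ G.Adj a b →
      ({x, a, b} : Finset (Fin n)) ∈ bad G := by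
    intro x a b ha hb hab hn
    refine (mem_bad G).2 ⟨mem_of_center G (v := x) ?_ (by simp) ?_, a, by simp, b, by simp, hab, hn⟩
    · exact card_eq_three.2 ⟨x, a, b, ha.ne, hb.ne, hab, rfl⟩
    · intro y hy hne
      simp only [mem_insert, mem_singleton] at hy
      rcases hy with rfl | rfl | rfl
      exacts [absurd rfl hne, ha, hb]
  have ex : ∀ y ∈ (G.neighborFinset v).erase u,
      ∃ S ∈ bad G, y ∈ S ∧ ∀ z ∈ S, z = y ∨ z = u ∨ z = v ∨ z = w := by
    intro y hy
    have hyu := (mem_erase.1 hy).1
    have hvy : G.Adj v y := by simpa using (mem_erase.1 hy).2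
    by_cases a1 : G.Adj u y
    · have hyw : y ≠ w := by rintro rfl; exact h4 a1
      by_cases a2 : G.Adj w y
      · exact ⟨_, key y u w a1.symm a2.symm h3 h4, by simp, by simp⟩
      · exact ⟨_, key v w y h2 hvy hyw.symm a2, by simp, by simp⟩
    · exact ⟨_, key v u y h1 hvy hyu.symm a1, by simp, by simp⟩
  choose! f hf using ex
  have : ((G.neighborFinset v).erase u).card ≤ (bad G).card := by
    apply card_le_card_of_injOn f (fun y hy => (hf y hy).1)
    intro y hy y' hy' h
    have hy := mem_coe.1 hy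
    have hy' := mem_coe.1 hy'
    have a1 := (hf y' hy').2.2 y (h ▸ (hf y hy).2.1)
    have a2 := (hf y hy).2.2 y' (h ▸ (hf y' hy').2.1)
    have b1 := (mem_erase.1 hy).1
    have b2 := (mem_erase.1 hy').1
    have c1 : y ≠ v := (show G.Adj v y by simpa using (mem_erase.1 hy).2).ne'
    have c2 : y' ≠ v := (show G.Adj v y' by simpa using (mem_erase.1 hy').2).ne'
    grind
  rw [card_erase_of_mem (by simpa using h1), SimpleGraph.card_neighborFinset_eq_degree] at this
  omega

lemma clique_sum [DecidableRel G.Adj]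
    (h : ∀ u v w, G.Adj v u → G.Adj v w → u ≠ w → G.Adj u w) (g : ℕ → ℤ)
    (hg : ∀ v, 0 ≤ g (G.degree v)) (v : Fin n) :
    ((G.degree v : ℤ) + 1) * g (G.degree v) ≤ ∑ u, g (G.degree u) := by
  have le : ∀ a b, G.Adj a b → G.degree a ≤ G.degree b := by
    intro a b hab
    have : insert a (G.neighborFinset a) ⊆ insert b (G.neighborFinset b) := by
      intro x hx
      rcases mem_insert.1 hx with rfl | hx
      · simp [hab.symm]
      · by_cases hxb : x = b
        · simp [hxb]
        · have := h b a x hab (by simpa using hx) (Ne.symm hxb)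
          simp [this]
    have := card_le_card this
    rw [card_insert_of_notMem (by simp), card_insert_of_notMem (by simp)] at this
    simpa using this
  have h1 : ∑ u ∈ insert v (G.neighborFinset v), g (G.degree u) ≤ ∑ u, g (G.degree u) :=
    sum_le_sum_of_subset_of_nonneg (subset_univ _) (fun i _ _ => hg i)
  have h2 : ∀ u ∈ insert v (G.neighborFinset v), g (G.degree u) = g (G.degree v) := by
    intro u hu
    rcases mem_insert.1 hu with rfl | hu
    · rfl
    · have : G.Adj v u := by simpa using hu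
      rw [le_antisymm (le u v this.symm) (le v u this)]
  rw [sum_congr rfl h2, sum_const, card_insert_of_notMem (by simp)] at h1
  simpa using h1

lemma deg_sum [DecidableRel G.Adj] : ∑ v, G.degree v = 2 * G.edgeSet.ncard := by
  rw [SimpleGraph.sum_degrees_eq_twice_card_edges, ← SimpleGraph.coe_edgeFinset, Set.ncard_coe_finset]

end

lemma lower (G : SimpleGraph (Fin 35)) (he : G.edgeSet.ncard = 86) : 115 ≤ s3 G := by
  classical
  have h1 := count G
  have h2 : ∑ v, (G.degree v : ℤ) = 172 := by
    have := deg_sum G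
    rw [he] at this
    exact_mod_cast this
  have pos : ∀ d : ℕ, (0 : ℤ) ≤ (d - 4) * (d - 5) := by
    intro d
    rcases le_or_gt d 4 with h | h
    · have : (d : ℤ) ≤ 4 := by exact_mod_cast h
      nlinarith
    · have : (5 : ℤ) ≤ d := by exact_mod_cast h
      nlinarith
  have h3 : 2 * ∑ v, (((G.degree v).choose 2 : ℕ) : ℤ)
      = ∑ v, ((G.degree v : ℤ) - 4) * (G.degree v - 5) + 676 := by
    have : ∀ d : ℕ, 2 * ((d.choose 2 : ℕ) : ℤ) = (d - 4) * (d - 5) + (8 * d - 20) := by
      intro d
      induction d with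
      | zero => simp
      | succ d ih => rw [Nat.choose_succ_succ' d 1]; push_cast; simp; linarith
    rw [mul_sum, sum_congr rfl (fun v _ => this _), sum_add_distrib, sum_sub_distrib, ← mul_sum, h2]
    simp
  have h1' : ∑ v, (((G.degree v).choose 2 : ℕ) : ℤ) + 2 * (bad G).card ≤ 3 * s3 G := by
    exact_mod_cast h1
  have main : 9 ≤ ∑ v, ((G.degree v : ℤ) - 4) * (G.degree v - 5) + 4 * (bad G).card := by
    by_cases h : ∀ u v w, G.Adj v u → G.Adj v w → u ≠ w → G.Adj u w
    · by_cases h6 : ∃ v, 6 ≤ G.degree v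
      · obtain ⟨v, hv⟩ := h6
        have := clique_sum G h (fun d => ((d : ℤ) - 4) * (d - 5)) (fun v => pos _) v
        have hv' : (6 : ℤ) ≤ G.degree v := by exact_mod_cast hv
        have a : (2 : ℤ) ≤ ((G.degree v : ℤ) - 4) * (G.degree v - 5) := by nlinarith
        nlinarith
      · push Not at h6
        have hs : ∑ v, (5 - (G.degree v : ℤ)) = 3 := by
          rw [sum_sub_distrib, h2]; simp
        have hp : ∀ v, 0 ≤ (5 - (G.degree v : ℤ)) := fun v => by have := h6 v; omega
        have : ∃ v, G.degree v ≤ 4 := by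
          by_contra hc
          push Not at hc
          have : ∑ v, (5 - (G.degree v : ℤ)) ≤ 0 :=
            sum_nonpos (fun v _ => by have := hc v; omega)
          omega
        obtain ⟨v, hv⟩ := this
        have := clique_sum G h (fun d => 5 - (d : ℤ)) hp v
        rw [hs] at this
        exfalso
        generalize G.degree v = d at this hv
        interval_cases d <;> simp at this
    · push Not at h
      obtain ⟨u, v, w, a1, a2, a3, a4⟩ := h
      have b1 := bad_ge G a1 a2 a3 a4
      have b2 : ((G.degree v : ℤ) - 4) * (G.degree v - 5)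
          ≤ ∑ v, ((G.degree v : ℤ) - 4) * (G.degree v - 5) :=
        single_le_sum (f := fun v => ((G.degree v : ℤ) - 4) * (G.degree v - 5))
          (fun i _ => pos _) (mem_univ v)
      have b3 : 2 ≤ G.degree v := by
        rw [← SimpleGraph.card_neighborFinset_eq_degree]
        exact one_lt_card.2 ⟨u, by simpa using a1, w, by simpa using a2, a3⟩
      have b4 := pos (G.degree v)
      generalize G.degree v = d at b1 b2 b3 b4
      rcases le_or_gt 4 d with h | h
      · omega
      · interval_cases d <;> simp at b2 <;> omega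
  omega

/-- disjoint union of cliques, the fibres of `f` -/
def blocks (f : Fin 35 → ℕ) : SimpleGraph (Fin 35) where
  Adj a b := a ≠ b ∧ f a = f b
  symm := ⟨fun _ _ h => ⟨h.1.symm, h.2.symm⟩⟩
  loopless := ⟨fun _ h => h.1 rfl⟩

instance (f : Fin 35 → ℕ) : DecidableRel (blocks f).Adj :=
  fun a b => inferInstanceAs (Decidable (a ≠ b ∧ f a = f b))

def f1 (a : Fin 35) : ℕ := if a.1 < 6 then 0 else (a.1 - 1) / 5
def f2 (a : Fin 35) : ℕ := if a.1 < 10 then a.1 / 5 else if a.1 < 28 then (a.1 + 2) / 6 else 5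

lemma e1 : (blocks f1).edgeSet.ncard = 71 := by
  have := deg_sum (blocks f1)
  have h : ∑ v, (blocks f1).degree v = 142 := by decide +kernel
  omega

lemma e2 : (blocks f2).edgeSet.ncard = 86 := by
  have := deg_sum (blocks f2)
  have h : ∑ v, (blocks f2).degree v = 172 := by decide +kernel
  omega

lemma upper' (f1 : Fin 35 → ℕ) : s3 (blocks f1) ≤ (((univ : Finset (Fin 35)).powersetCard 3).filter
      (fun S => ∀ a ∈ S, ∀ b ∈ S, f1 a = f1 b)).card := by
  unfold s3
  refine card_le_card ?_
  intro S hS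
  have hS := (mem_triples _).1 hS
  rw [mem_filter, mem_powersetCard]
  refine ⟨⟨subset_univ _, hS.1⟩, fun a ha b hb => ?_⟩
  obtain ⟨w⟩ := hS.2.preconnected ⟨a, by simpa using ha⟩ ⟨b, by simpa using hb⟩
  have : ∀ (x y : (S : Set (Fin 35))) (w : ((blocks f1).induce (S : Set (Fin 35))).Walk x y),
      f1 x = f1 y := by
    intro x y w
    induction w with
    | nil => rfl
    | cons h _ ih => exact (show f1 _ = f1 _ from h.2).trans ih
  exact this _ _ w

lemma upper : s3 (blocks f1) ≤ 74 := (upper' f1).trans (by decide +kernel)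

theorem result : ∃ p n e : ℕ, p * n < 2 * e ∧ 2 * (e + (p + 2).choose 2) < (p + 1) * n ∧
    e + (p + 2).choose 2 ≤ n.choose 2 ∧
    (m n (e + (p + 2).choose 2) : ℤ) - m n e ≠ (p * (p + 1) * (p + 2) / 3 : ℕ) := by
  refine ⟨4, 35, 71, by norm_num, by decide, by decide, ?_⟩
  have a : m 35 71 ≤ 74 := 
    (Nat.sInf_le (s := {k | ∃ G : SimpleGraph (Fin 35), G.edgeSet.ncard = 71 ∧ s3 G = k})
      ⟨_, e1, rfl⟩).trans upper
  have b : 115 ≤ m 35 86 := by
    obtain ⟨G, h1, h2⟩ := Nat.sInf_mem
      (s := {k | ∃ G : SimpleGraph (Fin 35), G.edgeSet.ncard = 86 ∧ s3 G = k}) ⟨_, _, e2, rfl⟩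
    exact (lower G h1).trans (le_of_eq h2)
  have c : 71 + (4 + 2).choose 2 = 86 := by decide
  rw [c]
  norm_num
  omega

end Pool.Agent.Results.MP_6d30b5_co.Counter
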